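import Pool.Agent.U131.SX.CpxSub

/-!
# From the modulus `𝔣𝔮` down to the modulus `𝔣`

`F` is a number field (for example a complex cubic field), `ι` gives its complex place and `w` its
real place, `H ⊆ L` are finite abelian extensions of `F` (for example the narrow ray class fields of
conductor `𝔣` and `𝔣𝔮`) with the same number `e` of roots of unity, `z` is the complex conjugation
above `w`, and `Z σ` are the partial zeta functions of `H/F` for the places dividing `𝔣` and
infinity.  `Hecke` contains known facts: continuation, `Z σ 0 = 0`, and the double zero of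
`Z σ + Z (z σ)` at `0` (there are at least three places).

If the Frobenius of the prime `𝔮` on `H` is `z` and Stark's conjecture holds for `L/F` and `𝔣𝔮`, then
it holds for `H/F` and `𝔣` up to a factor two, with the condition on the roots.
-/

set_option autoImplicit false

namespace Pool.Agent.Results.MP_d9f52e_nt.FromLargerModulus

open NumberField Pool.Agent.U131.SX.Cpx
open Pool.Agent.U131.SX (Aux)
open Pool.Agent.U131.SR.Lay (Agree)
open Pool.Agent.K4H33.SK (Qbar GQ)
open Pool.Agent.K4H33.SK.Stmt (Sub Ideals prd)

theorem result (ι w : Qbar →+* ℂ) (F H : Sub) [NumberField F] (e : ℕ) (𝔣 : Ideals F)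
    (art : Ideals F → GQ) (z : GQ) (Z : GQ → ℂ → ℂ) (h : Setting ι w F H e 𝔣 art z Z)
    (𝔮 : Ideals F) (hq : Aux F 𝔣 𝔮) (hz : Agree H (art 𝔮) z) (L : Sub)
    (hL : Tower F H L e (prd F 𝔣 𝔮) art) (hT : StarkFull ι F L e (prd F 𝔣 𝔮) art) :
    StarkHalf ι F H e Z :=
  half h hq hz hL hT

end Pool.Agent.Results.MP_d9f52e_nt.FromLargerModulus
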